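import Pool.Agent.Lib.MP_ea1188_al.KG.IfaceD

/-! # Module WRR of project KG: roots and conjugacy in `A ≀ C₂` (helper81). -/

set_option autoImplicit false

namespace KG.H81

open KG

variable {A : Type} [Group A]

lemma pow_false (l r : A) (n : ℕ) : (⟨l, r, false⟩ : Wr A) ^ n = ⟨l ^ n, r ^ n, false⟩ := by
  induction n with
  | zero => simp only [pow_zero]; rfl
  | succ n ih =>
    rw [pow_succ, ih, pow_succ, pow_succ]
    ext <;> simp

lemma sq_true (l r : A) : (⟨l, r, true⟩ : Wr A) ^ 2 = ⟨l * r, r * l, false⟩ := by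
  rw [pow_two]; ext <;> simp

lemma pow_true (l r : A) (j : ℕ) :
    (⟨l, r, true⟩ : Wr A) ^ (2 ^ (j + 1)) = ⟨(l * r) ^ (2 ^ j), (r * l) ^ (2 ^ j), false⟩ := by
  rw [pow_succ', pow_mul, sq_true, pow_false]

lemma conj_pow' (l r : A) (n : ℕ) : (r * l) ^ n = l⁻¹ * (l * r) ^ n * l := by
  induction n with
  | zero => simp
  | succ n ih =>
    rw [pow_succ, ih, pow_succ]
    group

lemma sq_s (w : Wr A) : (w ^ 2).s = false := by
  rcases w with ⟨l, r, _ | _⟩ <;> simp [pow_two]

theorem wrr : KG.WrrS := by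
  intro A _
  refine ⟨?_, ?_, ?_, ?_, ?_, ?_, ?_⟩
  · rintro x j hx ⟨⟨l, r, _ | _⟩, h⟩
    · rw [pow_false] at h
      exact ⟨l, (Wr.mk.inj h).1⟩
    · exfalso
      cases j with
      | zero =>
        simp only [pow_zero, pow_one] at h
        exact absurd (Wr.mk.inj h).2.2 (by simp)
      | succ j =>
        rw [pow_true] at h
        obtain ⟨h1, h2, -⟩ := Wr.mk.inj h
        rw [conj_pow', h1] at h2
        apply hx
        have : x = l * (l⁻¹ * x * l) * l⁻¹ := by group
        rw [this, h2]; simp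
  · rintro x j hx ⟨⟨l, r, _ | _⟩, h⟩
    · rw [pow_false] at h
      exact ⟨r, (Wr.mk.inj h).2.1⟩
    · exfalso
      cases j with
      | zero =>
        simp only [pow_zero, pow_one] at h
        exact absurd (Wr.mk.inj h).2.2 (by simp)
      | succ j =>
        rw [pow_true] at h
        obtain ⟨h1, h2, -⟩ := Wr.mk.inj h
        rw [conj_pow', h1] at h2
        apply hx
        rw [← h2]; simp
  · rintro x j ⟨⟨l, r, _ | _⟩, h⟩
    · rw [pow_false] at h
      refine ⟨l ^ 2, ?_⟩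
      rw [← pow_mul, ← pow_succ']
      exact (Wr.mk.inj h).1
    · rw [pow_true] at h
      exact ⟨l * r, (Wr.mk.inj h).1⟩
  · rintro x y ⟨⟨l, r, _ | _⟩, h⟩
    · rw [pow_false] at h
      obtain ⟨h1, h2, -⟩ := Wr.mk.inj h
      exact Or.inl ⟨⟨l, h1⟩, ⟨r, h2⟩⟩
    · rw [sq_true] at h
      obtain ⟨h1, h2, -⟩ := Wr.mk.inj h
      right
      rw [isConj_iff]
      exact ⟨l⁻¹, by rw [← h1, ← h2]; group⟩
  · rintro x y ⟨w, h⟩
    have := sq_s w
    rw [h] at this
    simp at this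
  · intro x y x' y'
    constructor
    · intro h
      rw [isConj_iff] at h
      obtain ⟨⟨l, r, _ | _⟩, h⟩ := h
      · rw [mul_inv_eq_iff_eq_mul] at h
        have h1 := congrArg Wr.l h
        have h2 := congrArg Wr.r h
        simp at h1 h2
        left
        rw [isConj_iff, isConj_iff]
        exact ⟨⟨l, by rw [h1]; simp⟩, ⟨r, by rw [h2]; simp⟩⟩
      · rw [mul_inv_eq_iff_eq_mul] at h
        have h1 := congrArg Wr.l h
        have h2 := congrArg Wr.r h
        simp at h1 h2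
        right
        rw [isConj_iff, isConj_iff]
        exact ⟨⟨r, by rw [h2]; simp⟩, ⟨l, by rw [h1]; simp⟩⟩
    · rintro (⟨h1, h2⟩ | ⟨h1, h2⟩)
      · rw [isConj_iff] at h1 h2 ⊢
        obtain ⟨l, hl⟩ := h1
        obtain ⟨r, hr⟩ := h2
        refine ⟨⟨l, r, false⟩, ?_⟩
        rw [mul_inv_eq_iff_eq_mul] at hl hr ⊢
        ext <;> simp [hl, hr]
      · rw [isConj_iff] at h1 h2 ⊢
        obtain ⟨r, hr⟩ := h1
        obtain ⟨l, hl⟩ := h2
        refine ⟨⟨l, r, true⟩, ?_⟩
        rw [mul_inv_eq_iff_eq_mul] at hl hr ⊢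
        ext <;> simp [hl, hr]
  · intro x y x' y' h
    rw [isConj_iff] at h
    obtain ⟨c, h⟩ := h
    have h1 := congrArg Wr.s h
    simp at h1

end KG.H81
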