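import Pool.Agent.Lib.MP_ea1188_al.KG.IfaceD
import Pool.Agent.Lib.MP_ea1188_al.KG.H81.Wrr

/-! # Module GAM of project KG: the elements `γ_k` (helper81). -/

set_option autoImplicit false

namespace KG.H81

open KG

lemma mk_mul_ff {A : Type} [Group A] (u v u' v' : A) :
    (⟨u, v, false⟩ : Wr A) * ⟨u', v', false⟩ = ⟨u * u', v * v', false⟩ := by
  ext <;> simp

lemma mk_one {A : Type} [Group A] : (⟨1, 1, false⟩ : Wr A) = 1 := rfl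

lemma qN_succ (n : ℕ) (x : Lam) : qN (n + 1) x = Wr.map (qN n) (psi x) := rfl

lemma qN_of_psi (n : ℕ) {x u v : Lam} {e : Bool} (h : psi x = ⟨u, v, e⟩) :
    (qN (n + 1) x : Wr (QQ n)) = ⟨qN n u, qN n v, e⟩ := by
  show Wr.map (qN n) (psi x) = _
  rw [h]; rfl

lemma psi_pow {x u v : Lam} (h : psi x = ⟨u, v, false⟩) (n : ℕ) :
    psi (x ^ n) = ⟨u ^ n, v ^ n, false⟩ := by
  rw [map_pow, h, pow_false]

lemma lc_lc : lc * lc = 1 := lbd_lbd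

/-! ## Sections of `κ = (ba)^8` -/

lemma psi_da2 : psi ((ld * la) ^ 2) = ⟨lb, lb, false⟩ := by
  rw [pow_two, map_mul, map_mul, psi_ld, psi_la]; ext <;> simp

lemma psi_ad2 : psi ((la * ld) ^ 2) = ⟨lb, lb, false⟩ := by
  rw [pow_two, map_mul, map_mul, psi_ld, psi_la]; ext <;> simp

lemma psi_ac2 : psi ((la * lc) ^ 2) = ⟨ld * la, la * ld, false⟩ := by
  rw [pow_two, map_mul, map_mul, psi_lc, psi_la]; ext <;> simp

lemma psi_ca2 : psi ((lc * la) ^ 2) = ⟨la * ld, ld * la, false⟩ := by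
  rw [pow_two, map_mul, map_mul, psi_lc, psi_la]; ext <;> simp

lemma psi_ba2 : psi ((lb * la) ^ 2) = ⟨la * lc, lc * la, false⟩ := by
  rw [pow_two, map_mul, map_mul, psi_lb, psi_la]; ext <;> simp

lemma psi_ac4 : psi ((la * lc) ^ 4) = ⟨(ld * la) ^ 2, (la * ld) ^ 2, false⟩ := by
  rw [show 4 = 2 * 2 from rfl, pow_mul]
  exact psi_pow psi_ac2 2

lemma psi_ca4 : psi ((lc * la) ^ 4) = ⟨(la * ld) ^ 2, (ld * la) ^ 2, false⟩ := by
  rw [show 4 = 2 * 2 from rfl, pow_mul]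
  exact psi_pow psi_ca2 2

/-- `κ`. -/
def kap : Lam := (lb * la) ^ 8

lemma psi_kap : psi kap = ⟨(la * lc) ^ 4, (lc * la) ^ 4, false⟩ := by
  rw [kap, show 8 = 2 * 4 from rfl, pow_mul]
  exact psi_pow psi_ba2 4

lemma kap_mem : kap ∈ LL := by
  have h : lt 0 = (lb * la) ^ 2 := by
    show lb * (la * lb * la) = _
    rw [pow_two]; simp only [mul_assoc]
  have h1 : lt 0 ∈ LL := ⟨FreeGroup.of 0, by simp [jL]⟩
  have h2 : kap = lt 0 ^ 4 := by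
    rw [h, ← pow_mul]; rfl
  rw [h2]
  exact pow_mem h1 4

/-! ## `pi0` and sections -/

lemma pi0_of_psi {x u v : Lam} (h : psi x = ⟨u, v, false⟩) (hu : pi0 u = 1) (hv : pi0 v = 1) :
    pi0 x = 1 := by
  have h1 : pi0 x = Wr.act pi0 (psi x) := (DFunLike.congr_fun act_psi x).symm
  rw [h1, h]
  ext1 w
  rcases w with _ | ⟨c, w⟩
  · rfl
  · cases c <;> simp [hu, hv]

lemma pi0_sq_of_psi {x u v : Lam} (h : psi x = ⟨u, v, false⟩) (hu : pi0 (u ^ 2) = 1)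
    (hv : pi0 (v ^ 2) = 1) : pi0 (x ^ 2) = 1 :=
  pi0_of_psi (psi_pow h 2) hu hv

lemma pi0_b2 : pi0 (lb ^ 2) = 1 := by rw [pow_two, lb_lb, map_one]
lemma pi0_a2 : pi0 (la ^ 2) = 1 := by rw [pow_two, la_la, map_one]
lemma pi0_da2 : pi0 (((ld * la) ^ 2) ^ 2) = 1 := pi0_sq_of_psi psi_da2 pi0_b2 pi0_b2
lemma pi0_ad2 : pi0 (((la * ld) ^ 2) ^ 2) = 1 := pi0_sq_of_psi psi_ad2 pi0_b2 pi0_b2
lemma pi0_ac4 : pi0 (((la * lc) ^ 4) ^ 2) = 1 := pi0_sq_of_psi psi_ac4 pi0_da2 pi0_ad2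
lemma pi0_ca4 : pi0 (((lc * la) ^ 4) ^ 2) = 1 := pi0_sq_of_psi psi_ca4 pi0_ad2 pi0_da2
lemma pi0_kap2 : pi0 (kap ^ 2) = 1 := pi0_sq_of_psi psi_kap pi0_ac4 pi0_ca4

/-! ## Nontriviality -/

lemma qN_la_ne (n : ℕ) : qN (n + 1) la ≠ 1 := by
  intro h
  have h1 : (qN (n + 1) la : Wr (QQ n)) = ⟨qN n 1, qN n 1, true⟩ := qN_of_psi n psi_la
  have h2 : (⟨qN n 1, qN n 1, true⟩ : Wr (QQ n)) = 1 := h1.symm.trans h
  exact absurd (congrArg Wr.s h2) (by simp)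

lemma qN_ne_of_psi {n : ℕ} {x u v : Lam} (h : psi x = ⟨u, v, false⟩) (hu : qN n u ≠ 1) :
    qN (n + 1) x ≠ 1 := by
  intro h1
  have h2 : (⟨qN n u, qN n v, false⟩ : Wr (QQ n)) = 1 := (qN_of_psi n h).symm.trans h1
  exact hu (congrArg Wr.l h2)

lemma qN_lb_ne (n : ℕ) : qN (n + 2) lb ≠ 1 := qN_ne_of_psi psi_lb (qN_la_ne n)

lemma qN_kap_ne (n : ℕ) : qN (n + 5) kap ≠ 1 :=
  qN_ne_of_psi psi_kap (qN_ne_of_psi psi_ac4 (qN_ne_of_psi psi_da2 (qN_lb_ne n)))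

/-! ## Descent for non-squares -/

/-- `x` is not a square and not conjugate to `y`. -/
def NS {A : Type} [Group A] (x y : A) : Prop := (¬ ∃ w : A, w ^ 2 = x) ∧ ¬ IsConj x y

lemma NS_step (hW : WrrS) {A : Type} [Group A] {x y : A} (h : NS x y) :
    NS (⟨x, y, false⟩ : Wr A) ⟨y, y, false⟩ := by
  obtain ⟨-, -, -, h4, -, h6, -⟩ := hW A
  refine ⟨?_, ?_⟩
  · intro h1
    rcases h4 x y h1 with ⟨h2, -⟩ | h2
    · exact h.1 h2
    · exact h.2 h2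
  · intro h1
    rcases (h6 _ _ _ _).1 h1 with ⟨h2, -⟩ | ⟨h2, -⟩
    · exact h.2 h2
    · exact h.2 h2

lemma nc_a (hW : WrrS) {A : Type} [Group A] {a x y : Wr A} (ha : a.s = true) (hx : x.s = false)
    (hy : y.s = false)
    (h : ¬ IsConj x y) : ¬ IsConj (⟨a, x, false⟩ : Wr (Wr A)) ⟨a, y, false⟩ := by
  obtain ⟨-, -, -, -, -, -, h7⟩ := hW A
  obtain ⟨-, -, -, -, -, h6, -⟩ := hW (Wr A)
  intro h1
  rcases (h6 _ _ _ _).1 h1 with ⟨-, h2⟩ | ⟨h2, -⟩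
  · exact h h2
  · rcases a with ⟨a1, a2, a3⟩
    rcases y with ⟨y1, y2, y3⟩
    obtain rfl : a3 = true := ha
    obtain rfl : y3 = false := hy
    exact h7 _ _ _ _ h2.symm

lemma ns_a (hW : WrrS) {A : Type} [Group A] {a x : Wr A} (ha : a.s = true) (hx : x.s = false) :
    ¬ ∃ w : Wr (Wr A), w ^ 2 = ⟨a, x, false⟩ := by
  obtain ⟨-, -, -, -, h5, -, h7⟩ := hW A
  obtain ⟨-, -, -, h4, -, -, -⟩ := hW (Wr A)
  intro h1
  rcases a with ⟨a1, a2, a3⟩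
  rcases x with ⟨x1, x2, x3⟩
  obtain rfl : a3 = true := ha
  obtain rfl : x3 = false := hx
  rcases h4 _ _ h1 with ⟨h2, -⟩ | h2
  · exact h5 _ _ h2
  · exact h7 _ _ _ _ h2.symm

/-- The element `γ₁`. -/
lemma gam_one (hL : LBrS) (hW : WrrS) : ∃ γ ∈ LL, ∃ n0 : ℕ, pi0 γ ^ (2 ^ 1) = 1 ∧
    ∀ n, n0 ≤ n → ∀ w : QQ n, w ^ (2 ^ 1) ≠ qN n γ ^ (2 ^ (1 - 1)) := by
  obtain ⟨y1, hy1, e1⟩ := (hL kap kap_mem).1
  obtain ⟨y2, hy2, e2⟩ := (hL y1 hy1).2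
  obtain ⟨y3, hy3, e3⟩ := (hL y2 hy2).2
  obtain ⟨y4, hy4, e4⟩ := (hL y3 hy3).1
  obtain ⟨y5, hy5, e5⟩ := (hL y4 hy4).1
  obtain ⟨y6, hy6, e6⟩ := (hL y5 hy5).1
  have p0 : psi (kap * y6) = ⟨(la * lc) ^ 4 * y5, (lc * la) ^ 4, false⟩ := by
    rw [map_mul, psi_kap, e6, mk_mul_ff, mul_one]
  have p1 : psi ((la * lc) ^ 4 * y5) = ⟨(ld * la) ^ 2 * y4, (la * ld) ^ 2, false⟩ := by
    rw [map_mul, psi_ac4, e5, mk_mul_ff, mul_one]
  have p2 : psi ((ld * la) ^ 2 * y4) = ⟨lb * y3, lb, false⟩ := by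
    rw [map_mul, psi_da2, e4, mk_mul_ff, mul_one]
  have p3 : psi (lb * y3) = ⟨la, lc * y2, false⟩ := by
    rw [map_mul, psi_lb, e3, mk_mul_ff, mul_one]
  have p4 : psi (lc * y2) = ⟨la, ld * y1, false⟩ := by
    rw [map_mul, psi_lc, e2, mk_mul_ff, mul_one]
  have p5 : psi (ld * y1) = ⟨kap, lb, false⟩ := by
    rw [map_mul, psi_ld, e1, mk_mul_ff, mul_one, one_mul]
  refine ⟨kap * y6, mul_mem kap_mem hy6, 11, ?_, ?_⟩
  · have h5 : pi0 ((ld * y1) ^ 2) = 1 := pi0_sq_of_psi p5 pi0_kap2 pi0_b2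
    have h4 : pi0 ((lc * y2) ^ 2) = 1 := pi0_sq_of_psi p4 pi0_a2 h5
    have h3 : pi0 ((lb * y3) ^ 2) = 1 := pi0_sq_of_psi p3 pi0_a2 h4
    have h2 : pi0 (((ld * la) ^ 2 * y4) ^ 2) = 1 := pi0_sq_of_psi p2 h3 pi0_b2
    have h1 : pi0 (((la * lc) ^ 4 * y5) ^ 2) = 1 := pi0_sq_of_psi p1 h2 pi0_ad2
    have h0 : pi0 ((kap * y6) ^ 2) = 1 := pi0_sq_of_psi p0 h1 pi0_ca4
    rw [← map_pow]
    exact h0
  · intro n hn w hw
    obtain ⟨m, rfl⟩ : ∃ m, n = m + 11 := ⟨n - 11, by omega⟩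
    simp only [pow_one, Nat.sub_self, pow_zero] at hw
    -- the chain
    have hK : qN (m + 5) kap ≠ 1 := qN_kap_ne m
    have hB : qN (m + 5) lb ≠ 1 := qN_lb_ne (m + 3)
    have hD : ¬ IsConj (qN (m + 6) (ld * y1)) (qN (m + 6) ld) := by
      have g1 : (qN (m + 6) (ld * y1) : Wr (QQ (m + 5))) = _ := qN_of_psi (m + 5) p5
      have g2 : (qN (m + 6) ld : Wr (QQ (m + 5))) = _ := qN_of_psi (m + 5) psi_ld
      obtain ⟨-, -, -, -, -, h6, -⟩ := hW (QQ (m + 5))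
      show ¬ IsConj (qN (m + 6) (ld * y1) : Wr (QQ (m + 5))) (qN (m + 6) ld : Wr (QQ (m + 5)))
      rw [g1, g2]
      intro h1
      rcases (h6 _ _ _ _).1 h1 with ⟨h2, -⟩ | ⟨-, h2⟩
      · rw [map_one] at h2
        exact hK (isConj_one_left.1 h2)
      · rw [map_one] at h2
        exact hB (isConj_one_left.1 h2)
    have hC : ¬ IsConj (qN (m + 7) (lc * y2)) (qN (m + 7) lc) := by
      have g1 : (qN (m + 7) (lc * y2) : Wr (QQ (m + 6))) = _ := qN_of_psi (m + 6) p4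
      have g2 : (qN (m + 7) lc : Wr (QQ (m + 6))) = _ := qN_of_psi (m + 6) psi_lc
      show ¬ IsConj (qN (m + 7) (lc * y2) : Wr (QQ (m + 6))) (qN (m + 7) lc : Wr (QQ (m + 6)))
      rw [g1, g2]
      exact nc_a (A := QQ (m + 5)) hW
        (congrArg Wr.s (qN_of_psi (m + 5) psi_la))
        (congrArg Wr.s (qN_of_psi (m + 5) p5))
        (congrArg Wr.s (qN_of_psi (m + 5) psi_ld)) hD
    have hBn : NS (qN (m + 8) (lb * y3)) (qN (m + 8) lb) := by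
      have g1 : (qN (m + 8) (lb * y3) : Wr (QQ (m + 7))) = _ := qN_of_psi (m + 7) p3
      have g2 : (qN (m + 8) lb : Wr (QQ (m + 7))) = _ := qN_of_psi (m + 7) psi_lb
      show NS (qN (m + 8) (lb * y3) : Wr (QQ (m + 7))) (qN (m + 8) lb : Wr (QQ (m + 7)))
      rw [g1, g2]
      exact ⟨ns_a (A := QQ (m + 6)) hW
        (congrArg Wr.s (qN_of_psi (m + 6) psi_la))
        (congrArg Wr.s (qN_of_psi (m + 6) p4)),
        nc_a (A := QQ (m + 6)) hW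
        (congrArg Wr.s (qN_of_psi (m + 6) psi_la))
        (congrArg Wr.s (qN_of_psi (m + 6) p4))
        (congrArg Wr.s (qN_of_psi (m + 6) psi_lc)) hC⟩
    have hY : (qN (m + 9) ((la * ld) ^ 2) : Wr (QQ (m + 8))) = ⟨qN (m + 8) lb, qN (m + 8) lb, false⟩ :=
      qN_of_psi (m + 8) psi_ad2
    have hY' : (qN (m + 9) ((ld * la) ^ 2) : Wr (QQ (m + 8))) = ⟨qN (m + 8) lb, qN (m + 8) lb, false⟩ :=
      qN_of_psi (m + 8) psi_da2
    have hX0 : NS (qN (m + 9) ((ld * la) ^ 2 * y4)) (qN (m + 9) ((la * ld) ^ 2)) := by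
      have g1 : (qN (m + 9) ((ld * la) ^ 2 * y4) : Wr (QQ (m + 8))) = _ := qN_of_psi (m + 8) p2
      show NS (qN (m + 9) ((ld * la) ^ 2 * y4) : Wr (QQ (m + 8)))
        (qN (m + 9) ((la * ld) ^ 2) : Wr (QQ (m + 8)))
      rw [g1, hY]
      exact NS_step hW hBn
    have hYY : qN (m + 9) ((ld * la) ^ 2) = qN (m + 9) ((la * ld) ^ 2) := hY'.trans hY.symm
    have hX : NS (qN (m + 10) ((la * lc) ^ 4 * y5)) (qN (m + 10) ((lc * la) ^ 4)) := by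
      have g1 : (qN (m + 10) ((la * lc) ^ 4 * y5) : Wr (QQ (m + 9))) = _ := qN_of_psi (m + 9) p1
      have g2 : (qN (m + 10) ((lc * la) ^ 4) : Wr (QQ (m + 9))) = _ := qN_of_psi (m + 9) psi_ca4
      show NS (qN (m + 10) ((la * lc) ^ 4 * y5) : Wr (QQ (m + 9)))
        (qN (m + 10) ((lc * la) ^ 4) : Wr (QQ (m + 9)))
      rw [g1, g2, hYY]
      exact NS_step hW hX0
    have hZ := (NS_step hW hX).1
    apply hZ
    refine ⟨w, ?_⟩
    have g1 : (qN (m + 11) (kap * y6) : Wr (QQ (m + 10))) = _ := qN_of_psi (m + 10) p0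
    exact hw.trans g1

/-- The induction step. -/
lemma gam_step (hL : LBrS) (hW : WrrS) (k : ℕ) (hk : 1 ≤ k)
    (h : ∃ γ ∈ LL, ∃ n0 : ℕ, pi0 γ ^ (2 ^ k) = 1 ∧
      ∀ n, n0 ≤ n → ∀ w : QQ n, w ^ (2 ^ k) ≠ qN n γ ^ (2 ^ (k - 1))) :
    ∃ γ ∈ LL, ∃ n0 : ℕ, pi0 γ ^ (2 ^ (k + 1)) = 1 ∧
      ∀ n, n0 ≤ n → ∀ w : QQ n, w ^ (2 ^ (k + 1)) ≠ qN n γ ^ (2 ^ (k + 1 - 1)) := by
  obtain ⟨γ, hγ, n0, hπ, hroot⟩ := h
  obtain ⟨y1, hy1, e1⟩ := (hL γ hγ).1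
  obtain ⟨y2, hy2, e2⟩ := (hL y1 hy1).1
  obtain ⟨y3, hy3, e3⟩ := (hL y2 hy2).1
  obtain ⟨y4, hy4, e4⟩ := (hL y3 hy3).1
  obtain ⟨y5, hy5, e5⟩ := (hL y4 hy4).1
  have p0 : psi (y5 * kap) = ⟨y4 * (la * lc) ^ 4, (lc * la) ^ 4, false⟩ := by
    rw [map_mul, psi_kap, e5, mk_mul_ff, one_mul]
  have p1 : psi (y4 * (la * lc) ^ 4) = ⟨y3 * (ld * la) ^ 2, (la * ld) ^ 2, false⟩ := by
    rw [map_mul, psi_ac4, e4, mk_mul_ff, one_mul]
  have p2 : psi (y3 * (ld * la) ^ 2) = ⟨y2 * lb, lb, false⟩ := by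
    rw [map_mul, psi_da2, e3, mk_mul_ff, one_mul]
  have p3 : psi (y2 * lb) = ⟨y1 * la, lc, false⟩ := by
    rw [map_mul, psi_lb, e2, mk_mul_ff, one_mul]
  have p4 : psi ((y1 * la) ^ 2) = ⟨γ, γ, false⟩ := by
    rw [pow_two, map_mul, map_mul, e1, psi_la]; ext <;> simp
  refine ⟨y5 * kap, mul_mem hy5 kap_mem, n0 + 5, ?_, ?_⟩
  · have key : ∀ {x u v : Lam}, psi x = ⟨u, v, false⟩ → pi0 (u ^ (2 ^ (k + 1))) = 1 →
        pi0 (v ^ 2) = 1 → pi0 (x ^ (2 ^ (k + 1))) = 1 := by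
      intro x u v hx hu hv
      refine pi0_of_psi (psi_pow hx _) hu ?_
      rw [pow_succ', pow_mul, map_pow, hv, one_pow]
    have h4 : pi0 ((y1 * la) ^ (2 ^ (k + 1))) = 1 := by
      rw [pow_succ', pow_mul]
      have := psi_pow p4 (2 ^ k)
      exact pi0_of_psi this (by rw [map_pow]; exact hπ) (by rw [map_pow]; exact hπ)
    have h3 := key p3 h4 (by rw [pow_two, lc_lc, map_one])
    have h2 := key p2 h3 pi0_b2
    have h1 := key p1 h2 pi0_ad2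
    have h0 := key p0 h1 pi0_ca4
    rw [← map_pow]; exact h0
  · intro n hn w hw
    obtain ⟨m, rfl⟩ : ∃ m, n = m + 5 := ⟨n - 5, by omega⟩
    simp only [Nat.add_sub_cancel] at hw
    rw [← map_pow] at hw
    -- the sections of the power
    have hz : qN m γ ^ (2 ^ (k - 1)) ≠ 1 := by
      intro h1
      exact hroot m (by omega) 1 (by rw [one_pow, h1])
    have hkk : 2 ^ k = 2 * 2 ^ (k - 1) := by
      rw [← pow_succ']; congr 1; omega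
    have q4 : psi ((y1 * la) ^ (2 ^ k)) = ⟨γ ^ (2 ^ (k - 1)), γ ^ (2 ^ (k - 1)), false⟩ := by
      rw [hkk, pow_mul]; exact psi_pow p4 _
    have q3 := psi_pow p3 (2 ^ k)
    have q2 := psi_pow p2 (2 ^ k)
    have q1 := psi_pow p1 (2 ^ k)
    have q0 := psi_pow p0 (2 ^ k)
    -- triviality of the second components
    have c3 : lc ^ (2 ^ k) = 1 := by rw [hkk, pow_mul, pow_two, lc_lc, one_pow]
    have c2 : lb ^ (2 ^ k) = 1 := by rw [hkk, pow_mul, pow_two, lb_lb, one_pow]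
    have c1 : ((la * ld) ^ 2) ^ (2 ^ k) = 1 := by
      rw [hkk, pow_mul, ← pow_mul (la * ld) 2 2, show 2 * 2 = 4 from rfl, lad_pow, one_pow]
    have c0 : psi (((lc * la) ^ 4) ^ (2 ^ k)) = 1 := by
      rw [hkk, pow_mul, map_pow]
      have : psi (((lc * la) ^ 4) ^ 2) = 1 := by
        rw [psi_pow psi_ca4 2, ← pow_mul (la * ld) 2 2, show 2 * 2 = 4 from rfl, lad_pow,
          ← pow_mul (ld * la) 2 2, show 2 * 2 = 4 from rfl]
        have h5 : (ld * la) ^ 4 = 1 := by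
          have h6 : (ld * la) ^ 4 = ld * (la * ld) ^ 4 * ld := by
            have h7 : ld * ld = 1 := ld_ld
            calc (ld * la) ^ 4 = (ld * la) ^ 4 * (ld * ld) := by rw [h7, mul_one]
              _ = ld * (la * ld) ^ 4 * ld := by simp only [pow_succ, pow_zero, one_mul, mul_assoc]
          rw [h6, lad_pow, mul_one, ld_ld]
        rw [h5]; rfl
      rw [this, one_pow]
    rw [c3] at q3
    rw [c2] at q2
    rw [c1] at q1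
    -- images
    have g4 : (qN (m + 1) ((y1 * la) ^ (2 ^ k)) : Wr (QQ m)) =
        ⟨qN m γ ^ (2 ^ (k - 1)), qN m γ ^ (2 ^ (k - 1)), false⟩ := by
      rw [qN_of_psi m q4, map_pow]
    have g3 : (qN (m + 2) ((y2 * lb) ^ (2 ^ k)) : Wr (QQ (m + 1))) =
        ⟨qN (m + 1) ((y1 * la) ^ (2 ^ k)), 1, false⟩ := by
      rw [qN_of_psi (m + 1) q3, map_one]
    have g2 : (qN (m + 3) ((y3 * (ld * la) ^ 2) ^ (2 ^ k)) : Wr (QQ (m + 2))) =
        ⟨qN (m + 2) ((y2 * lb) ^ (2 ^ k)), 1, false⟩ := by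
      rw [qN_of_psi (m + 2) q2, map_one]
    have g1 : (qN (m + 4) ((y4 * (la * lc) ^ 4) ^ (2 ^ k)) : Wr (QQ (m + 3))) =
        ⟨qN (m + 3) ((y3 * (ld * la) ^ 2) ^ (2 ^ k)), 1, false⟩ := by
      rw [qN_of_psi (m + 3) q1, map_one]
    have g0 : (qN (m + 5) ((y5 * kap) ^ (2 ^ k)) : Wr (QQ (m + 4))) =
        ⟨qN (m + 4) ((y4 * (la * lc) ^ 4) ^ (2 ^ k)), 1, false⟩ := by
      rw [qN_of_psi (m + 4) q0]
      have : qN (m + 4) (((lc * la) ^ 4) ^ (2 ^ k)) = 1 := by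
        show Wr.map (qN (m + 3)) (psi _) = 1
        rw [c0, map_one]
      rw [this]
    -- nontriviality
    have n4 : qN (m + 1) ((y1 * la) ^ (2 ^ k)) ≠ 1 := by
      intro h1; exact hz (congrArg Wr.l (g4.symm.trans h1))
    have n3 : qN (m + 2) ((y2 * lb) ^ (2 ^ k)) ≠ 1 := by
      intro h1; exact n4 (congrArg Wr.l (g3.symm.trans h1))
    have n2 : qN (m + 3) ((y3 * (ld * la) ^ 2) ^ (2 ^ k)) ≠ 1 := by
      intro h1; exact n3 (congrArg Wr.l (g2.symm.trans h1))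
    have n1 : qN (m + 4) ((y4 * (la * lc) ^ 4) ^ (2 ^ k)) ≠ 1 := by
      intro h1; exact n2 (congrArg Wr.l (g1.symm.trans h1))
    obtain ⟨w1, hw1⟩ := (hW (QQ (m + 4))).1 _ (k + 1) n1 ⟨w, hw.trans g0⟩
    obtain ⟨w2, hw2⟩ := (hW (QQ (m + 3))).1 _ (k + 1) n2 ⟨w1, hw1.trans g1⟩
    obtain ⟨w3, hw3⟩ := (hW (QQ (m + 2))).1 _ (k + 1) n3 ⟨w2, hw2.trans g2⟩
    obtain ⟨w4, hw4⟩ := (hW (QQ (m + 1))).1 _ (k + 1) n4 ⟨w3, hw3.trans g3⟩
    obtain ⟨w5, hw5⟩ := (hW (QQ m)).2.2.1 _ k ⟨w4, hw4.trans g4⟩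
    exact hroot m (by omega) w5 hw5

/-- Module GAM. -/
theorem gam (hL : LBrS) (hW : WrrS) : KG.GamS := by
  intro k hk
  induction k, hk using Nat.le_induction with
  | base => exact gam_one hL hW
  | succ k hk ih => exact gam_step hL hW k hk ih

end KG.H81
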